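import Mathlib

set_option autoImplicit false

namespace Pool.Agent.X260.QR

open Rack Quandles

/-- multiplication of the integral quandle ring: `e_x e_y = e_(x * y)` with `x * y = y ◃ x` -/
noncomputable def qmul {X : Type} [Quandle X] (u v : X →₀ ℤ) : X →₀ ℤ :=
  u.sum fun x a => v.sum fun y b => Finsupp.single (y ◃ x) (a * b)

/-- the idempotents of the integral quandle ring are exactly `0` and the `e_x` -/
def OnlyTrivial (X : Type) [Quandle X] : Prop :=
  ∀ u : X →₀ ℤ, qmul u u = u ↔ (u = 0 ∨ ∃ x, u = Finsupp.single x 1)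

/-- `P` with `inc` is a free product (coproduct) of the quandles `X i` -/
def IsFreeProduct {I : Type} (X : I → Type) [∀ i, Quandle (X i)] (P : Type) [Quandle P]
    (inc : ∀ i, X i →◃ P) : Prop :=
  ∀ (Z : Type) [Quandle Z] (f : ∀ i, X i →◃ Z), ∃! g : P →◃ Z, ∀ i x, g (inc i x) = f i x

variable {X Y : Type} [Quandle X] [Quandle Y]

theorem qmul_single (x y : X) (a b : ℤ) :
    qmul (Finsupp.single x a) (Finsupp.single y b) = Finsupp.single (y ◃ x) (a * b) := by
  unfold qmul
  rw [Finsupp.sum_single_index, Finsupp.sum_single_index]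
  · simp
  · simp

theorem qmul_add_left (u v w : X →₀ ℤ) : qmul (u + v) w = qmul u w + qmul v w := by
  classical
  unfold qmul
  rw [Finsupp.sum_add_index']
  · intro x; simp
  · intro x a b
    rw [← Finsupp.sum_add]
    congr 1
    funext y c
    rw [← Finsupp.single_add, add_mul]

theorem qmul_add_right (u v w : X →₀ ℤ) : qmul u (v + w) = qmul u v + qmul u w := by
  classical
  unfold qmul
  rw [← Finsupp.sum_add]
  congr 1
  funext x a
  rw [Finsupp.sum_add_index']
  · intro y; simp
  · intro y b c
    rw [← Finsupp.single_add, mul_add]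

theorem qmul_zero_left (u : X →₀ ℤ) : qmul 0 u = 0 := by
  unfold qmul; exact Finsupp.sum_zero_index

theorem qmul_zero_right (u : X →₀ ℤ) : qmul u 0 = 0 := by
  unfold qmul
  simp

theorem qmul_map (f : X →◃ Y) (u v : X →₀ ℤ) :
    qmul (Finsupp.mapDomain f u) (Finsupp.mapDomain f v) = Finsupp.mapDomain f (qmul u v) := by
  classical
  induction u using Finsupp.induction_linear with
  | zero => rw [qmul_zero_left, Finsupp.mapDomain_zero, qmul_zero_left]
  | add a b ha hb =>
    rw [Finsupp.mapDomain_add, qmul_add_left, ha, hb, qmul_add_left, Finsupp.mapDomain_add]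
  | single x a =>
    induction v using Finsupp.induction_linear with
    | zero => rw [qmul_zero_right, Finsupp.mapDomain_zero, qmul_zero_right]
    | add b c hb hc =>
      rw [Finsupp.mapDomain_add, qmul_add_right, hb, hc, qmul_add_right, Finsupp.mapDomain_add]
    | single y b =>
      rw [Finsupp.mapDomain_single, Finsupp.mapDomain_single, qmul_single, qmul_single,
        Finsupp.mapDomain_single, f.map_act]

theorem triv_idem (u : X →₀ ℤ) (h : u = 0 ∨ ∃ x, u = Finsupp.single x 1) : qmul u u = u := by
  rcases h with rfl | ⟨x, rfl⟩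
  · exact qmul_zero_left 0
  · rw [qmul_single, Quandle.fix, one_mul]

/-- distinct elements act differently -/
theorem faithful (h : OnlyTrivial X) (x y : X) (hxy : ∀ z, x ◃ z = y ◃ z) : x = y := by
  classical
  by_contra hne
  have hyx : y ◃ x = x := by rw [← hxy, Quandle.fix]
  have hxy' : x ◃ y = y := by rw [hxy, Quandle.fix]
  have h1 : qmul (Finsupp.single x 2 + Finsupp.single y (-1) : X →₀ ℤ)
      (Finsupp.single x 2 + Finsupp.single y (-1)) = Finsupp.single x 2 + Finsupp.single y (-1) := by
    rw [qmul_add_left, qmul_add_right, qmul_add_right, qmul_single, qmul_single, qmul_single,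
      qmul_single, Quandle.fix, Quandle.fix, hyx, hxy', ← Finsupp.single_add,
      ← Finsupp.single_add]
    norm_num
  rcases (h _).1 h1 with h2 | ⟨z, h2⟩
  · have := DFunLike.congr_fun h2 x
    simp [Finsupp.single_apply, Ne.symm hne] at this
  · have := DFunLike.congr_fun h2 x
    simp only [Finsupp.add_apply, Finsupp.single_apply] at this
    rw [if_neg (Ne.symm hne)] at this
    split_ifs at this <;> simp_all

/-- a coefficient with a unique factorisation -/
theorem coeff_unique (u : X →₀ ℤ) (m1 m2 : X) (h1 : m1 ∈ u.support) (h2 : m2 ∈ u.support)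
    (huniq : ∀ m ∈ u.support, ∀ m' ∈ u.support, m' ◃ m = m2 ◃ m1 → m = m1 ∧ m' = m2) :
    qmul u u (m2 ◃ m1) = u m1 * u m2 := by
  classical
  unfold qmul
  rw [Finsupp.sum_apply, Finsupp.sum, Finset.sum_eq_single m1]
  · rw [Finsupp.sum_apply, Finsupp.sum, Finset.sum_eq_single m2]
    · simp
    · intro b hb hbne
      rw [Finsupp.single_apply, if_neg]
      intro he
      exact hbne (huniq m1 h1 b hb he).2
    · intro h; exact absurd h2 h
  · intro b hb hbne
    rw [Finsupp.sum_apply, Finsupp.sum]
    apply Finset.sum_eq_zero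
    intro c hc
    rw [Finsupp.single_apply, if_neg]
    intro he
    exact hbne (huniq b hb c hc he).1
  · intro h; exact absurd h1 h

end Pool.Agent.X260.QR
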