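import Mathlib

set_option autoImplicit false

namespace Pool.Agent.X260.EX

variable {G : Type} [DecidableEq G]

/-- the map to the elementary group with basis `A` -/
def nu (A : Finset G) (M : ℕ) (g : G) : Multiplicative (A → ZMod M) :=
  Multiplicative.ofAdd (fun x : A => if g = x.1 then (1 : ZMod M) else 0)

/-- number of pairs of `l` with first entry `x` -/
def c1 (l : List (G × G)) (x : G) : ℤ := (l.map fun p => if p.1 = x then (1 : ℤ) else 0).sum

/-- number of pairs of `l` with second entry `x` -/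
def c2 (l : List (G × G)) (x : G) : ℤ := (l.map fun p => if p.2 = x then (1 : ℤ) else 0).sum

/-- number of pairs of `l` with different entries -/
def kk (l : List (G × G)) : ℤ := (l.map fun p => if p.1 = p.2 then (0 : ℤ) else 1).sum

theorem ev1 (A : Finset G) (M : ℕ) (l : List (G × G)) (x : A) :
    Multiplicative.toAdd ((l.map fun p => nu A M p.1).prod) x = (c1 l x.1 : ZMod M) := by
  induction l with
  | nil => simp [c1]
  | cons p l ih =>
    rw [List.map_cons, List.prod_cons, toAdd_mul, Pi.add_apply, ih]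
    show (if p.1 = x.1 then (1 : ZMod M) else 0) + (c1 l x.1 : ZMod M) = _
    have : c1 (p :: l) x.1 = (if p.1 = x.1 then 1 else 0) + c1 l x.1 := by simp [c1]
    rw [this]; push_cast; rfl

theorem ev2 (A : Finset G) (M : ℕ) (l : List (G × G)) (x : A) :
    Multiplicative.toAdd ((l.map fun p => nu A M p.2).prod) x = (c2 l x.1 : ZMod M) := by
  induction l with
  | nil => simp [c2]
  | cons p l ih =>
    rw [List.map_cons, List.prod_cons, toAdd_mul, Pi.add_apply, ih]
    show (if p.2 = x.1 then (1 : ZMod M) else 0) + (c2 l x.1 : ZMod M) = _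
    have : c2 (p :: l) x.1 = (if p.2 = x.1 then 1 else 0) + c2 l x.1 := by simp [c2]
    rw [this]; push_cast; rfl

theorem diff_le (l : List (G × G)) (x : G) : |c1 l x - c2 l x| ≤ kk l := by
  induction l with
  | nil => simp [c1, c2, kk]
  | cons p l ih =>
    simp only [c1, c2, kk, List.map_cons, List.sum_cons] at ih ⊢
    rw [abs_le] at ih ⊢
    by_cases h : p.1 = p.2
    · rw [h]; simp only [if_true]; constructor <;> linarith [ih.1, ih.2]
    · rw [if_neg h]
      split_ifs <;> constructor <;> linarith [ih.1, ih.2]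

theorem kk_le (ρ : G → G → ℝ) (h0 : ∀ x, ρ x x = 0) (A : Finset G) (ε : ℝ)
    (hε : ∀ x ∈ A, ∀ y ∈ A, x ≠ y → ε ≤ ρ x y) (l : List (G × G))
    (hl : ∀ p ∈ l, p.1 ∈ A ∧ p.2 ∈ A) : ε * (kk l : ℝ) ≤ (l.map fun p => ρ p.1 p.2).sum := by
  induction l with
  | nil => simp [kk]
  | cons p l ih =>
    have ih' := ih (fun q hq => hl q (List.mem_cons_of_mem _ hq))
    have hp := hl p List.mem_cons_self
    have hk : kk (p :: l) = (if p.1 = p.2 then 0 else 1) + kk l := by simp [kk]
    rw [hk, List.map_cons, List.sum_cons]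
    by_cases h : p.1 = p.2
    · rw [if_pos h, h, h0, zero_add, zero_add]; exact ih'
    · rw [if_neg h]
      have := hε _ hp.1 _ hp.2 h
      push_cast
      linarith

theorem pot (ρ : G → G → ℝ) (htri : ∀ x y z, ρ x z ≤ ρ x y + ρ y z) (A : Finset G) (b : G)
    (l : List (G × G)) (hl : ∀ p ∈ l, p.1 ∈ A ∧ p.2 ∈ A) :
    ∑ x ∈ A, ρ x b * ((c1 l x : ℝ) - (c2 l x : ℝ)) ≤ (l.map fun p => ρ p.1 p.2).sum := by
  induction l with
  | nil => simp [c1, c2]
  | cons p l ih =>
    have ih' := ih (fun q hq => hl q (List.mem_cons_of_mem _ hq))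
    have hp := hl p List.mem_cons_self
    have h1 : ∑ x ∈ A, ρ x b * (((c1 (p :: l) x : ℤ) : ℝ) - ((c2 (p :: l) x : ℤ) : ℝ))
        = ∑ x ∈ A, ρ x b * ((c1 l x : ℝ) - (c2 l x : ℝ)) + (ρ p.1 b - ρ p.2 b) := by
      have h2 : ∀ x, ρ x b * (((c1 (p :: l) x : ℤ) : ℝ) - ((c2 (p :: l) x : ℤ) : ℝ))
          = ρ x b * ((c1 l x : ℝ) - (c2 l x : ℝ)) +
            ((if p.1 = x then ρ x b else 0) - (if p.2 = x then ρ x b else 0)) := by
        intro x
        simp only [c1, c2, List.map_cons, List.sum_cons]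
        push_cast
        split_ifs <;> ring
      rw [Finset.sum_congr rfl fun x _ => h2 x, Finset.sum_add_distrib, Finset.sum_sub_distrib,
        Finset.sum_ite_eq, Finset.sum_ite_eq, if_pos hp.1, if_pos hp.2]
    rw [h1, List.map_cons, List.sum_cons]
    have := htri p.1 p.2 b
    linarith

theorem main [Group G] (ρ : G → G → ℝ) (h0 : ∀ x, ρ x x = 0) (hpos : ∀ x y, x ≠ y → 0 < ρ x y)
    (htri : ∀ x y z, ρ x z ≤ ρ x y + ρ y z) (A : Finset G)
    (hA : ∀ a ∈ A, ∀ b ∈ A, a * b ∉ A) :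
    ∃ (F : Type) (_ : CommGroup F) (_ : Finite F) (ν : G → F), Set.InjOn ν A ∧
      (∀ a ∈ A, ∀ b ∈ A, a * b ∈ A → ν (a * b) = ν a * ν b) ∧
      Subgroup.closure (ν '' A) = ⊤ ∧
      ∀ a ∈ A, ∀ b ∈ A, ∀ l : List (G × G), (∀ p ∈ l, p.1 ∈ A ∧ p.2 ∈ A) →
        (l.map fun p => ν p.1).prod = ν a → (l.map fun p => ν p.2).prod = ν b →
        ρ a b ≤ (l.map fun p => ρ p.1 p.2).sum := by
  classical
  -- bounds
  obtain ⟨ε, hε0, hε⟩ : ∃ ε > 0, ∀ x ∈ A, ∀ y ∈ A, x ≠ y → ε ≤ ρ x y := by
    by_cases hne : ((A ×ˢ A).filter fun q => q.1 ≠ q.2).Nonempty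
    · obtain ⟨q, hq, hmin⟩ := Finset.exists_min_image _ (fun q : G × G => ρ q.1 q.2) hne
      refine ⟨ρ q.1 q.2, hpos _ _ (Finset.mem_filter.1 hq).2, fun x hx y hy hxy => ?_⟩
      exact hmin (x, y) (Finset.mem_filter.2 ⟨Finset.mem_product.2 ⟨hx, hy⟩, hxy⟩)
    · refine ⟨1, one_pos, fun x hx y hy hxy => ?_⟩
      exact absurd ⟨(x, y), Finset.mem_filter.2 ⟨Finset.mem_product.2 ⟨hx, hy⟩, hxy⟩⟩ hne
  obtain ⟨R, hR⟩ : ∃ R : ℝ, ∀ x ∈ A, ∀ y ∈ A, ρ x y ≤ R := by
    obtain ⟨R, hR⟩ := ((A ×ˢ A).image (fun q : G × G => ρ q.1 q.2)).bddAbove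
    refine ⟨R, fun x hx y hy => hR ?_⟩
    exact Finset.mem_coe.2 (Finset.mem_image.2 ⟨(x, y), Finset.mem_product.2 ⟨hx, hy⟩, rfl⟩)
  obtain ⟨N, hN⟩ := exists_nat_gt (R / ε)
  have hM : NeZero (N + 3) := ⟨by omega⟩
  have h1M : (1 : ZMod (N + 3)) ≠ 0 := by
    haveI : Fact (1 < N + 3) := ⟨by omega⟩
    exact one_ne_zero
  refine ⟨Multiplicative (A → ZMod (N + 3)), inferInstance, inferInstance, nu A (N + 3), ?_, ?_,
    ?_, ?_⟩
  · intro x hx y hy hxy
    have h1 := congrFun (congrArg Multiplicative.toAdd hxy) ⟨x, hx⟩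
    simp only [nu, toAdd_ofAdd, if_true] at h1
    by_contra hne
    rw [if_neg (fun h => hne h.symm)] at h1
    exact h1M h1
  · intro a ha b hb hab
    exact absurd hab (hA a ha b hb)
  · rw [eq_top_iff]
    intro f _
    have hf : f = ∏ x : A, nu A (N + 3) x.1 ^ (Multiplicative.toAdd f x).val := by
      apply Multiplicative.toAdd.injective
      funext y
      rw [toAdd_prod, Finset.sum_apply, Finset.sum_eq_single y]
      · rw [toAdd_pow]
        simp [nu]
      · intro x _ hxy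
        rw [toAdd_pow]
        have hne : x.1 ≠ y.1 := fun h => hxy (Subtype.ext h)
        simp [nu, hxy]
      · intro h; exact absurd (Finset.mem_univ y) h
    rw [hf]
    apply Subgroup.prod_mem
    intro x _
    have hm : nu A (N + 3) x.1 ∈ nu A (N + 3) '' (A : Set G) := ⟨x.1, x.2, rfl⟩
    exact pow_mem (Subgroup.subset_closure hm) _
  · intro a ha b hb l hl h1 h2
    by_cases hk : (N : ℤ) < kk l
    · have h3 := kk_le ρ h0 A ε hε l hl
      have h4 : (N : ℝ) ≤ (kk l : ℝ) := by exact_mod_cast hk.le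
      have h5 : R < ε * N := by rw [div_lt_iff₀ hε0] at hN; linarith
      have h6 := hR a ha b hb
      have h7 : ε * (N : ℝ) ≤ ε * (kk l : ℝ) := by nlinarith
      linarith
    · push Not at hk
      have hx : ∀ x ∈ A, c1 l x - c2 l x = (if a = x then 1 else 0) - (if b = x then 1 else 0) := by
        intro x hx
        have e1 := congrFun (congrArg Multiplicative.toAdd h1) ⟨x, hx⟩
        have e2 := congrFun (congrArg Multiplicative.toAdd h2) ⟨x, hx⟩
        rw [ev1] at e1
        rw [ev2] at e2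
        simp only [nu, toAdd_ofAdd] at e1 e2
        have e3 : (((c1 l x - c2 l x) - ((if a = x then 1 else 0) - (if b = x then 1 else 0)) : ℤ) :
            ZMod (N + 3)) = 0 := by
          push_cast
          rw [e1, e2]; ring
        rw [ZMod.intCast_zmod_eq_zero_iff_dvd] at e3
        have e4 := abs_le.1 (diff_le l x)
        have e5 := Int.eq_zero_of_abs_lt_dvd e3 (by
          rw [abs_lt]
          push_cast
          split_ifs <;> constructor <;> linarith [e4.1, e4.2])
        linarith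
      have h3 := pot ρ htri A b l hl
      have h4 : ∑ x ∈ A, ρ x b * ((c1 l x : ℝ) - (c2 l x : ℝ)) = ρ a b - ρ b b := by
        have h5 : ∀ x ∈ A, ρ x b * ((c1 l x : ℝ) - (c2 l x : ℝ))
            = (if a = x then ρ x b else 0) - (if b = x then ρ x b else 0) := by
          intro x hxA
          have h6 : ((c1 l x : ℝ) - (c2 l x : ℝ))
              = (if a = x then 1 else 0) - (if b = x then 1 else 0) := by
            exact_mod_cast hx x hxA
          rw [h6]
          split_ifs <;> ring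
        rw [Finset.sum_congr rfl h5, Finset.sum_sub_distrib, Finset.sum_ite_eq, Finset.sum_ite_eq,
          if_pos ha, if_pos hb]
      rw [h4, h0, sub_zero] at h3
      exact h3

end Pool.Agent.X260.EX
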