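import Mathlib
import Pool.Agent.X260.QR.Ring

set_option autoImplicit false

namespace Pool.Agent.X260.QR

open Rack Quandles

/-- primitive integer vectors -/
abbrev Vec : Type := {v : ℤ × ℤ // IsCoprime v.1 v.2}

/-- the algebraic intersection number -/
def det (v w : ℤ × ℤ) : ℤ := v.1 * w.2 - v.2 * w.1

/-- the Dehn twist about `w`, `v ↦ v + det(w, v) w` -/
def tw (w v : ℤ × ℤ) : ℤ × ℤ := (v.1 + det w v * w.1, v.2 + det w v * w.2)

/-- the inverse Dehn twist about `w` -/
def tw' (w v : ℤ × ℤ) : ℤ × ℤ := (v.1 - det w v * w.1, v.2 - det w v * w.2)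

theorem tw_coprime (w v : Vec) : IsCoprime (tw w.1 v.1).1 (tw w.1 v.1).2 := by
  obtain ⟨⟨v1, v2⟩, x, y, h⟩ := v
  obtain ⟨⟨w1, w2⟩, hw⟩ := w
  simp only at h
  refine ⟨x + (x * w1 + y * w2) * w2, y - (x * w1 + y * w2) * w1, ?_⟩
  simp only [tw, det]
  linear_combination h

theorem tw'_coprime (w v : Vec) : IsCoprime (tw' w.1 v.1).1 (tw' w.1 v.1).2 := by
  obtain ⟨⟨v1, v2⟩, x, y, h⟩ := v
  obtain ⟨⟨w1, w2⟩, hw⟩ := w
  simp only at h
  refine ⟨x - (x * w1 + y * w2) * w2, y + (x * w1 + y * w2) * w1, ?_⟩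
  simp only [tw', det]
  linear_combination h

/-- `v` and `-v` are the same curve -/
instance vecSetoid : Setoid Vec where
  r v w := v.1 = w.1 ∨ v.1 = -w.1
  iseqv :=
    { refl := fun v => Or.inl rfl
      symm := by
        rintro v w (h | h)
        · exact Or.inl h.symm
        · exact Or.inr (by rw [h, neg_neg])
      trans := by
        rintro u v w (h | h) (h' | h')
        · exact Or.inl (h.trans h')
        · exact Or.inr (h.trans h')
        · exact Or.inr (by rw [h, h'])
        · exact Or.inl (by rw [h, h', neg_neg]) }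

/-- the isotopy classes of essential simple closed curves on the torus -/
def Slope : Type := Quotient vecSetoid

theorem eqv {v w : Vec} : (⟦v⟧ : Slope) = ⟦w⟧ ↔ (v.1 = w.1 ∨ v.1 = -w.1) := Quotient.eq

theorem tw_compat (w w' v v' : Vec) (hw : w.1 = w'.1 ∨ w.1 = -w'.1)
    (hv : v.1 = v'.1 ∨ v.1 = -v'.1) :
    tw w.1 v.1 = tw w'.1 v'.1 ∨ tw w.1 v.1 = -tw w'.1 v'.1 := by
  rcases hw with hw | hw <;> rcases hv with hv | hv <;> rw [hw, hv]
  · exact Or.inl rfl
  · right; ext <;> simp [tw, det] <;> ring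
  · left; ext <;> simp [tw, det] <;> ring
  · right; ext <;> simp [tw, det] <;> ring

theorem tw'_compat (w w' v v' : Vec) (hw : w.1 = w'.1 ∨ w.1 = -w'.1)
    (hv : v.1 = v'.1 ∨ v.1 = -v'.1) :
    tw' w.1 v.1 = tw' w'.1 v'.1 ∨ tw' w.1 v.1 = -tw' w'.1 v'.1 := by
  rcases hw with hw | hw <;> rcases hv with hv | hv <;> rw [hw, hv]
  · exact Or.inl rfl
  · right; ext <;> simp [tw', det] <;> ring
  · left; ext <;> simp [tw', det] <;> ring
  · right; ext <;> simp [tw', det] <;> ring

/-- the Dehn quandle of the torus -/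
instance slopeQuandle : Quandle Slope where
  act := Quotient.map₂ (fun w v => (⟨tw w.1 v.1, tw_coprime w v⟩ : Vec))
    (fun w w' hw v v' hv => tw_compat w w' v v' hw hv)
  invAct := Quotient.map₂ (fun w v => (⟨tw' w.1 v.1, tw'_coprime w v⟩ : Vec))
    (fun w w' hw v v' hv => tw'_compat w w' v v' hw hv)
  self_distrib := by
    intro x y z
    induction x using Quotient.inductionOn with | _ x => ?_
    induction y using Quotient.inductionOn with | _ y => ?_
    induction z using Quotient.inductionOn with | _ z => ?_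
    apply eqv.2
    left
    ext <;> simp only [tw, det] <;> ring
  left_inv := by
    intro x y
    induction x using Quotient.inductionOn with | _ x => ?_
    induction y using Quotient.inductionOn with | _ y => ?_
    apply eqv.2
    left
    ext <;> simp only [tw, tw', det] <;> ring
  right_inv := by
    intro x y
    induction x using Quotient.inductionOn with | _ x => ?_
    induction y using Quotient.inductionOn with | _ y => ?_
    apply eqv.2
    left
    ext <;> simp only [tw, tw', det] <;> ring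
  fix := by
    intro x
    induction x using Quotient.inductionOn with | _ x => ?_
    apply eqv.2
    left
    ext <;> simp only [tw, det] <;> ring

/-- the class of a primitive vector -/
def mk (v : Vec) : Slope := Quotient.mk vecSetoid v

theorem mk_eq {v w : Vec} : mk v = mk w ↔ (v.1 = w.1 ∨ v.1 = -w.1) := Quotient.eq

theorem act_mk (w v : Vec) : mk w ◃ mk v = mk ⟨tw w.1 v.1, tw_coprime w v⟩ := rfl

theorem inv_mk (w v : Vec) : mk w ◃⁻¹ mk v = mk ⟨tw' w.1 v.1, tw'_coprime w v⟩ := rfl

theorem exists_mk (p : Slope) : ∃ v, p = mk v := by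
  induction p using Quotient.inductionOn with | _ v => exact ⟨v, rfl⟩

/-- the geometric intersection number -/
def gi : Slope → Slope → ℕ := Quotient.lift₂ (fun v w => (det v.1 w.1).natAbs) (by
  intro v w v' w' hv hw
  show (det v.1 w.1).natAbs = (det v'.1 w'.1).natAbs
  rcases hv with hv | hv <;> rcases hw with hw | hw <;> rw [hv, hw]
  · exact Int.natAbs_eq_natAbs_iff.2 (Or.inr (by simp only [det, Prod.fst_neg, Prod.snd_neg]; ring))
  · exact Int.natAbs_eq_natAbs_iff.2 (Or.inr (by simp only [det, Prod.fst_neg, Prod.snd_neg]; ring))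
  · exact Int.natAbs_eq_natAbs_iff.2 (Or.inl (by simp only [det, Prod.fst_neg, Prod.snd_neg]; ring)))

theorem gi_mk (v w : Vec) : gi (mk v) (mk w) = (det v.1 w.1).natAbs := rfl

/-- two primitive vectors with intersection number zero agree up to sign -/
theorem eq_of_det (v w : Vec) (h : det v.1 w.1 = 0) : mk v = mk w := by
  rw [mk_eq]
  obtain ⟨⟨v1, v2⟩, hv⟩ := v
  obtain ⟨⟨w1, w2⟩, hw⟩ := w
  simp only [det] at h hv hw ⊢
  have h1 : v1 ∣ w1 := by
    have : v1 ∣ v2 * w1 := ⟨w2, by linarith⟩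
    exact hv.dvd_of_dvd_mul_left this
  have h2 : w1 ∣ v1 := by
    have : w1 ∣ w2 * v1 := ⟨v2, by linarith⟩
    exact hw.dvd_of_dvd_mul_left this
  have h3 : v2 ∣ w2 := by
    have : v2 ∣ v1 * w2 := ⟨w1, by linarith⟩
    exact hv.symm.dvd_of_dvd_mul_left this
  have h4 : w2 ∣ v2 := by
    have : w2 ∣ w1 * v2 := ⟨v1, by linarith⟩
    exact hw.symm.dvd_of_dvd_mul_left this
  have h5 := Int.natAbs_eq_natAbs_iff.1 (Nat.dvd_antisymm (Int.natAbs_dvd_natAbs.2 h1)
    (Int.natAbs_dvd_natAbs.2 h2))
  have h6 := Int.natAbs_eq_natAbs_iff.1 (Nat.dvd_antisymm (Int.natAbs_dvd_natAbs.2 h3)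
    (Int.natAbs_dvd_natAbs.2 h4))
  by_cases hv1 : v1 = 0
  · subst hv1
    have hw1 : w1 = 0 := by rcases h5 with h5 | h5 <;> omega
    subst hw1
    rcases h6 with rfl | rfl
    · exact Or.inl rfl
    · right; ext <;> simp
  by_cases hv2 : v2 = 0
  · subst hv2
    have hw2 : w2 = 0 := by rcases h6 with h6 | h6 <;> omega
    subst hw2
    rcases h5 with rfl | rfl
    · exact Or.inl rfl
    · right; ext <;> simp
  rcases h5 with rfl | rfl
  · have : v2 = w2 := by
      have h7 : v1 * (w2 - v2) = 0 := by linarith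
      rcases mul_eq_zero.1 h7 with h8 | h8
      · exact absurd h8 hv1
      · omega
    left; rw [this]
  · have : v2 = -w2 := by
      have h7 : w1 * (w2 + v2) = 0 := by linarith
      rcases mul_eq_zero.1 h7 with h8 | h8
      · exact absurd (by omega) hv1
      · omega
    right; rw [this]; rfl

theorem arith1 (a s m : ℤ) (ha : a ≠ 0) (hs : s ≠ 0) (h1 : |m| ≤ |a|) (h2 : |m + a * s| ≤ |a|)
    (h3 : |-(a * a) + m * (m + a * s)| ≤ |a|) : |a| = 1 ∧ |s| = 1 ∧ (m = 0 ∨ m + a * s = 0) := by
  have hs1 : 1 ≤ |s| := Int.one_le_abs hs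
  have ha1 : 1 ≤ |a| := Int.one_le_abs ha
  have ht : |a| ≤ |a * s| := by rw [abs_mul]; nlinarith
  have hneg : m * (m + a * s) ≤ 0 := by
    by_contra hpos
    push Not at hpos
    generalize a * s = t at *
    rcases pos_and_pos_or_neg_and_neg_of_mul_pos hpos with ⟨h5, h6⟩ | ⟨h5, h6⟩ <;>
    · rcases abs_cases m with ⟨h7, _⟩ | ⟨h7, _⟩ <;>
      rcases abs_cases t with ⟨h8, _⟩ | ⟨h8, _⟩ <;>
      rcases abs_cases (m + t) with ⟨h9, _⟩ | ⟨h9, _⟩ <;>
      rw [h7] at h1 <;> rw [h8] at ht <;> rw [h9] at h2 <;> omega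
  have haa : a * a = |a| * |a| := (abs_mul_abs_self a).symm
  have h4 : |a| * |a| - m * (m + a * s) ≤ |a| := by
    have := neg_abs_le (-(a * a) + m * (m + a * s))
    linarith
  have ha2 : |a| = 1 := by nlinarith
  have h5 : m * (m + a * s) = 0 := by rw [ha2] at h4; linarith
  refine ⟨ha2, ?_, mul_eq_zero.1 h5⟩
  have h6 : |a * s| = |s| := by rw [abs_mul, ha2, one_mul]
  rcases mul_eq_zero.1 h5 with h7 | h7
  · rw [h7, zero_add, h6, ha2] at h2; omega
  · have : |m| = |a * s| := by rw [show m = -(a * s) by linarith, abs_neg]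
    rw [this, h6, ha2] at h1; omega

theorem torus : OnlyTrivial Slope := by
  classical
  intro u
  refine ⟨fun hu => ?_, triv_idem u⟩
  by_cases h0 : u = 0
  · exact Or.inl h0
  right
  by_contra hcon
  -- two different slopes in the support
  have htwo : ∃ p ∈ u.support, ∃ q ∈ u.support, p ≠ q := by
    by_contra h
    push Not at h
    obtain ⟨p, hp⟩ := Finsupp.support_nonempty_iff.2 h0
    have hup : u = Finsupp.single p (u p) := by
      ext q
      by_cases hq : q ∈ u.support
      · rw [h q hq p hp, Finsupp.single_eq_same]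
      · rw [Finsupp.notMem_support_iff.1 hq, Finsupp.single_apply, if_neg]
        rintro rfl; exact hq hp
    have h1 : u p * u p = u p := by
      have h2 := hu
      rw [hup, qmul_single, Quandle.fix] at h2
      have h3 := DFunLike.congr_fun h2 p
      simpa using h3
    have h2 : u p = 1 := by
      have h4 : u p ≠ 0 := Finsupp.mem_support_iff.1 hp
      have h5 : u p * (u p - 1) = 0 := by linarith
      rcases mul_eq_zero.1 h5 with h6 | h6
      · exact absurd h6 h4
      · omega
    exact hcon ⟨p, by rw [← h2]; exact hup⟩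
  obtain ⟨p, hp, q, hq, hpq⟩ := htwo
  -- a pair with maximal intersection number
  obtain ⟨⟨m1, m2⟩, hm, hmax'⟩ := Finset.exists_max_image (u.support ×ˢ u.support)
    (fun x => gi x.1 x.2) ⟨(p, q), Finset.mem_product.2 ⟨hp, hq⟩⟩
  rw [Finset.mem_product] at hm
  obtain ⟨hm1, hm2⟩ := hm
  have hmax : ∀ x ∈ u.support, ∀ y ∈ u.support, gi x y ≤ gi m1 m2 :=
    fun x hx y hy => hmax' (x, y) (Finset.mem_product.2 ⟨hx, hy⟩)
  -- the key step
  have key : ∀ v w : Vec, mk v ∈ u.support → mk w ∈ u.support →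
      (det v.1 w.1).natAbs = gi m1 m2 → det v.1 w.1 ≠ 0 → mk w ◃ mk v ∈ u.support := by
    intro v w hv hw hN ha
    by_contra hz
    have h1 := coeff_unique u (mk v) (mk w) hv hw (by
      intro m hm m' hm' hmm
      obtain ⟨v', rfl⟩ := exists_mk m
      obtain ⟨w', rfl⟩ := exists_mk m'
      by_cases hs : det w.1 w'.1 = 0
      · have h2 := eq_of_det w w' hs
        refine ⟨?_, h2.symm⟩
        rw [← h2] at hmm
        exact (Rack.left_cancel _).1 hmm
      · exfalso
        have h2 : mk v' = mk ⟨tw' w'.1 (tw w.1 v.1), tw'_coprime w' ⟨tw w.1 v.1, tw_coprime w v⟩⟩ := by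
          have h3 : mk v' = mk w' ◃⁻¹ (mk w ◃ mk v) := by rw [← hmm, Rack.invAct_act_eq]
          exact h3
        have e1 := hmax _ hv _ hm'
        have e2 := hmax _ hm _ hm'
        have e3 := hmax _ hv _ hm
        have e4 := hmax _ hw _ hm
        rw [h2] at e2 e3 e4
        rw [gi_mk, ← hN, ← Int.ofNat_le, Int.natCast_natAbs, Int.natCast_natAbs] at e1 e2 e3 e4
        have e0 : |det v.1 w.1| = |det w.1 v.1| := by
          rw [← abs_neg]; congr 1; simp only [det]; ring
        rw [e0] at e1 e2 e3 e4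
        have ha' : det w.1 v.1 ≠ 0 := by
          intro h; apply ha
          have : det v.1 w.1 = -det w.1 v.1 := by simp only [det]; ring
          rw [this, h, neg_zero]
        have f2 : det (tw' w'.1 (tw w.1 v.1)) w'.1
            = det v.1 w'.1 + det w.1 v.1 * det w.1 w'.1 := by
          simp only [tw, tw', det]; ring
        have f3 : det v.1 (tw' w'.1 (tw w.1 v.1)) = -(det w.1 v.1 * det w.1 v.1) +
            det v.1 w'.1 * (det v.1 w'.1 + det w.1 v.1 * det w.1 w'.1) := by
          simp only [tw, tw', det]; ring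
        have f4 : det w.1 (tw' w'.1 (tw w.1 v.1)) = det w.1 v.1 +
            det w.1 w'.1 * (det v.1 w'.1 + det w.1 v.1 * det w.1 w'.1) := by
          simp only [tw, tw', det]; ring
        have f5 : det (tw w.1 v.1) w'.1 = det v.1 w'.1 + det w.1 v.1 * det w.1 w'.1 := by
          simp only [tw, det]; ring
        rw [f2] at e2
        rw [f3] at e3
        rw [f4] at e4
        obtain ⟨g1, g2, g3⟩ := arith1 _ _ _ ha' hs e1 e2 e3
        rcases g3 with g3 | g3
        · rw [g3, zero_add] at e4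
          have g4 : det w.1 w'.1 * det w.1 w'.1 = 1 := by
            rw [← abs_mul_abs_self, g2, one_mul]
          have g5 : det w.1 v.1 + det w.1 w'.1 * (det w.1 v.1 * det w.1 w'.1)
              = 2 * det w.1 v.1 := by linear_combination (det w.1 v.1) * g4
          rw [g5, abs_mul, g1] at e4
          norm_num at e4
        · have g6 : mk ⟨tw w.1 v.1, tw_coprime w v⟩ = mk w' := by
            apply eq_of_det
            show det (tw w.1 v.1) w'.1 = 0
            rw [f5, g3]
          rw [act_mk, g6] at hz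
          exact hz hm')
    rw [hu, Finsupp.notMem_support_iff.1 hz] at h1
    exact mul_ne_zero (Finsupp.mem_support_iff.1 hv) (Finsupp.mem_support_iff.1 hw) h1.symm
  -- conclusion
  obtain ⟨v, hv⟩ := exists_mk m1
  obtain ⟨w, hw⟩ := exists_mk m2
  have hN : (det v.1 w.1).natAbs = gi m1 m2 := by rw [hv, hw, gi_mk]
  have ha : det v.1 w.1 ≠ 0 := by
    intro h
    rw [h, Int.natAbs_zero] at hN
    have h1 := hmax p hp q hq
    obtain ⟨v', rfl⟩ := exists_mk p
    obtain ⟨w', rfl⟩ := exists_mk q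
    rw [← hN, gi_mk] at h1
    exact hpq (eq_of_det v' w' (Int.natAbs_eq_zero.1 (Nat.le_zero.1 h1)))
  have hm1' : mk v ∈ u.support := by rw [← hv]; exact hm1
  have hm2' : mk w ∈ u.support := by rw [← hw]; exact hm2
  have hflip : det w.1 v.1 = -det v.1 w.1 := by simp only [det]; ring
  have k1 := key v w hm1' hm2' hN ha
  have k2 := key w v hm2' hm1' (by rw [hflip, Int.natAbs_neg, hN]) (by rw [hflip]; exact neg_ne_zero.2 ha)
  rw [act_mk] at k1 k2
  have e1 := hmax _ hm1' _ k1
  have e2 := hmax _ k1 _ k2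
  rw [gi_mk, ← hN, ← Int.ofNat_le, Int.natCast_natAbs, Int.natCast_natAbs] at e1 e2
  have f1 : det v.1 (tw w.1 v.1) = -(det v.1 w.1 * det v.1 w.1) := by
    simp only [tw, det]; ring
  have f2 : det (tw w.1 v.1) (tw v.1 w.1) = det v.1 w.1 + det v.1 w.1 * det v.1 w.1 * det v.1 w.1 := by
    simp only [tw, det]; ring
  have e1' : |-(det v.1 w.1 * det v.1 w.1)| ≤ |det v.1 w.1| := by rw [← f1]; exact e1
  have e2' : |det v.1 w.1 + det v.1 w.1 * det v.1 w.1 * det v.1 w.1| ≤ |det v.1 w.1| := by
    rw [← f2]; exact e2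
  generalize det v.1 w.1 = a at ha e1' e2'
  have ha1 : 1 ≤ |a| := Int.one_le_abs ha
  rw [abs_neg, abs_mul] at e1'
  have ha2 : |a| = 1 := by nlinarith
  have ha3 : a * a = 1 := by rw [← abs_mul_abs_self, ha2, one_mul]
  rw [ha3, one_mul, ← two_mul, abs_mul, ha2] at e2'
  norm_num at e2'

end Pool.Agent.X260.QR
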